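import Pool.Agent.H494Z.BetaDefs
import Pool.Agent.H494Z.Beta

set_option autoImplicit false

namespace Pool.Agent.Results.MP_462fed_al.ATransvection

open Pool.Agent.H494Z.Beta

/-- There are a nonabelian finite simple group `S`, an odd prime `r` dividing its order and an
automorphism `x` of order greater than two with `β_{r,S}(x) = b(r)`. -/
theorem result : ∃ (S : Type) (_ : Group S) (_ : Finite S), IsSimpleGroup S ∧
    (∃ a b : S, a * b ≠ b * a) ∧ ∃ (r : ℕ) (x : MulAut S), r.Prime ∧ Odd r ∧ r ∣ Nat.card S ∧
      2 < orderOf x ∧ IsLeast (betaSet r x) (bound r) :=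
  Pool.Agent.H494Z.Beta.main

end Pool.Agent.Results.MP_462fed_al.ATransvection
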